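import Pool.Agent.H53.GR.Targets

/-!
# Board gar_modules, module STP: one step of the partite construction
-/

set_option autoImplicit false

namespace Pool.Agent.H90.GR

open Pool.Agent.H68.BP Pool.Agent.H58.SF Pool.Agent.H53.GC Pool.Agent.H53.NR Pool.Agent.H58.GR
open Pool.Agent.H53.GR

open Combinatorics

section

variable {τ : Sig} {Q P : Type} (π : P → Q) (𝕏 : Str τ P) {a : ℕ} (α : Fin a → Q)
  (𝔸 : Str τ (Fin a)) (ι : Type)

/-- the points of the first kind -/
abbrev DD : Type := {p : Fin a × (ι → P) // ∀ n, π (p.2 n) = α p.1}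

/-- the copies -/
abbrev EE : Type := {e : Fin a → P // SCopy π 𝕏 α 𝔸 e}

/-- the new set -/
abbrev PP : Type := DD π α ι ⊕ (Line (EE π 𝕏 α 𝔸) ι × {x : P // ∀ i, π x ≠ α i})

variable {π 𝕏 α 𝔸 ι}

/-- the point of the line -/
def ln (l : Line (EE π 𝕏 α 𝔸) ι) (i : Fin a) (x : P) : ι → P :=
  fun n => (l.idxFun n).elim x (fun e => e.1 i)

theorem ln_part (l : Line (EE π 𝕏 α 𝔸) ι) (i : Fin a) (x : P) (hx : π x = α i) (n : ι) :
    π (ln l i x n) = α i := by
  unfold ln
  rcases l.idxFun n with _ | e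
  · exact hx
  · exact e.2.part i

theorem ln_inj (l : Line (EE π 𝕏 α 𝔸) ι) (i : Fin a) {y y' : P}
    (h : ln l i y = ln l i y') : y = y' := by
  obtain ⟨n, hn⟩ := l.proper
  have h1 := congrFun h n
  unfold ln at h1
  rw [hn] at h1
  exact h1

/-- the part of a point -/
def p' : PP π 𝕏 α 𝔸 ι → Q
  | .inl w => α w.1.1
  | .inr w => π w.2.1

open Classical in
/-- the embedding -/
noncomputable def ph (l : Line (EE π 𝕏 α 𝔸) ι) (x : P) : PP π 𝕏 α 𝔸 ι :=
  if h : ∃ i, π x = α i then .inl ⟨(h.choose, ln l h.choose x), ln_part l _ x h.choose_spec⟩ else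
    .inr (l, ⟨x, fun i hi => h ⟨i, hi⟩⟩)

theorem ph_inl (hα : Function.Injective α) (l : Line (EE π 𝕏 α 𝔸) ι) {x : P} {i : Fin a}
    (hx : π x = α i) : ph l x = .inl ⟨(i, ln l i x), ln_part l i x hx⟩ := by
  have h : ∃ i, π x = α i := ⟨i, hx⟩
  unfold ph
  rw [dif_pos h]
  have h1 : h.choose = i := hα (h.choose_spec.symm.trans hx)
  congr 1
  apply Subtype.ext
  show (h.choose, ln l h.choose x) = (i, ln l i x)
  rw [h1]

theorem ph_inr (l : Line (EE π 𝕏 α 𝔸) ι) {x : P} (hx : ∀ i, π x ≠ α i) :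
    ph l x = .inr (l, ⟨x, hx⟩) := by
  have h : ¬ ∃ i, π x = α i := fun ⟨i, hi⟩ => hx i hi
  unfold ph
  rw [dif_neg h]

theorem ph_part (hα : Function.Injective α) (l : Line (EE π 𝕏 α 𝔸) ι) (x : P) :
    p' (ph l x) = π x := by
  by_cases h : ∃ i, π x = α i
  · obtain ⟨i, hi⟩ := h
    rw [ph_inl hα l hi]
    exact hi.symm
  · rw [ph_inr l (fun i hi => h ⟨i, hi⟩)]
    rfl

theorem ph_inj (hα : Function.Injective α) (l : Line (EE π 𝕏 α 𝔸) ι) {x y : P}
    (h : ph l x = ph l y) : x = y := by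
  by_cases hx : ∃ i, π x = α i
  · obtain ⟨i, hi⟩ := hx
    have h1 : π y = α i := by
      rw [← ph_part hα l y, ← h, ph_part hα l x, hi]
    rw [ph_inl hα l hi, ph_inl hα l h1] at h
    have h2 := Sum.inl.inj h
    have h3 : ln l i x = ln l i y := congrArg (fun w => w.1.2) h2
    exact ln_inj l i h3
  · have hx' : ∀ i, π x ≠ α i := fun i hi => hx ⟨i, hi⟩
    have hy' : ∀ i, π y ≠ α i := by
      intro i hi
      have h1 : π x = α i := by
        rw [← ph_part hα l x, h, ph_part hα l y, hi]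
      exact hx' i h1
    rw [ph_inr l hx', ph_inr l hy'] at h
    have h2 := Sum.inr.inj h
    exact congrArg (fun w => w.2.1) h2

/-- if `ph l x` is of the second kind, then `l` is its line -/
theorem ph_line (l : Line (EE π 𝕏 α 𝔸) ι) {x : P}
    {w : Line (EE π 𝕏 α 𝔸) ι × {x : P // ∀ i, π x ≠ α i}} (h : ph l x = .inr w) : w.1 = l := by
  by_cases hx : ∃ i, π x = α i
  · unfold ph at h
    rw [dif_pos hx] at h
    cases h
  · rw [ph_inr l (fun i hi => hx ⟨i, hi⟩)] at h
    exact (congrArg Prod.fst (Sum.inr.inj h)).symm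

/-- the new structure, first case -/
def XA (𝕏 : Str τ P) (𝔸 : Str τ (Fin a)) (lb : Fin τ.m) (w : Fin (τ.ar lb) → DD π α ι) : Prop :=
  (𝔸 lb (fun i => (w i).1.1) ∧ ∀ n, 𝕏 lb (fun i => (w i).1.2 n)) ∨
    (¬ 𝔸 lb (fun i => (w i).1.1) ∧ ∃ n, 𝕏 lb (fun i => (w i).1.2 n))

variable (π 𝕏 α 𝔸 ι)

/-- the new structure -/
def X' : Str τ (PP π 𝕏 α 𝔸 ι) := fun lb z =>
  (∃ w : Fin (τ.ar lb) → DD π α ι, (∀ i, z i = .inl (w i)) ∧ XA 𝕏 𝔸 lb w) ∨
  ((∃ i w, z i = .inr w) ∧ ∃ (L : Line (EE π 𝕏 α 𝔸) ι) (y : Fin (τ.ar lb) → P),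
    (∀ i, z i = ph L (y i)) ∧ 𝕏 lb y)

variable {π 𝕏 α 𝔸 ι}

theorem X'_inl {lb : Fin τ.m} {z : Fin (τ.ar lb) → PP π 𝕏 α 𝔸 ι}
    {w : Fin (τ.ar lb) → DD π α ι} (hz : ∀ i, z i = .inl (w i)) :
    X' π 𝕏 α 𝔸 ι lb z ↔ XA 𝕏 𝔸 lb w := by
  constructor
  · rintro (⟨w', h1, h2⟩ | ⟨⟨i, w', h1⟩, -⟩)
    · have h3 : w' = w := by
        funext i
        exact Sum.inl.inj ((h1 i).symm.trans (hz i))
      rwa [h3] at h2
    · rw [hz i] at h1
      cases h1
  · intro h
    exact Or.inl ⟨w, hz, h⟩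

theorem pull_ph (hα : Function.Injective α)
    (L : Line (EE π 𝕏 α 𝔸) ι) : pull (X' π 𝕏 α 𝔸 ι) (ph L) = 𝕏 := by
  funext lb z
  apply propext
  show X' π 𝕏 α 𝔸 ι lb (fun i => ph L (z i)) ↔ 𝕏 lb z
  by_cases h : ∀ i, ∃ j, π (z i) = α j
  · choose idx hidx using h
    rw [X'_inl (w := fun i => ⟨(idx i, ln L (idx i) (z i)), ln_part L _ _ (hidx i)⟩)
      (fun i => ph_inl hα L (hidx i))]
    obtain ⟨n, hn⟩ := L.proper
    have hnone : ∀ n, L.idxFun n = none → (𝕏 lb (fun i => ln L (idx i) (z i) n) ↔ 𝕏 lb z) := by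
      intro n hn
      have : (fun i => ln L (idx i) (z i) n) = z := by
        funext i
        unfold ln
        rw [hn]
        rfl
      rw [this]
    have hsome : ∀ n e, L.idxFun n = some e →
        (𝕏 lb (fun i => ln L (idx i) (z i) n) ↔ 𝔸 lb idx) := by
      intro n e hn
      have h1 : (fun i => ln L (idx i) (z i) n) = fun i => e.1 (idx i) := by
        funext i
        unfold ln
        rw [hn]
        rfl
      rw [h1]
      have h2 := congrFun (congrFun e.2.str lb) idx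
      exact h2 ▸ Iff.rfl
    unfold XA
    simp only
    constructor
    · rintro (⟨h1, h2⟩ | ⟨h1, m, h2⟩)
      · exact (hnone n hn).1 (h2 n)
      · rcases hm : L.idxFun m with _ | e
        · exact (hnone m hm).1 h2
        · exact absurd ((hsome m e hm).1 h2) h1
    · intro h1
      by_cases h2 : 𝔸 lb idx
      · refine Or.inl ⟨h2, fun m => ?_⟩
        rcases hm : L.idxFun m with _ | e
        · exact (hnone m hm).2 h1
        · exact (hsome m e hm).2 h2
      · exact Or.inr ⟨h2, n, (hnone n hn).2 h1⟩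
  · push Not at h
    obtain ⟨i, hi⟩ := h
    constructor
    · rintro (⟨w, h1, -⟩ | ⟨-, L', y, h1, h2⟩)
      · have h2 := h1 i
        simp only [ph_inr L hi] at h2
        cases h2
      · have h3 := h1 i
        simp only [ph_inr L hi] at h3
        have h4 : L = L' := ph_line L' h3.symm
        subst h4
        have h5 : y = z := by
          funext j
          exact ph_inj hα L (h1 j).symm
        rwa [h5] at h2
    · intro h1
      exact Or.inr ⟨⟨i, _, ph_inr L hi⟩, L, z, fun _ => rfl, h1⟩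

/-- a tuple in a relation is an irreducible substructure -/
theorem rel_hemb {V : Type} {𝔹 : Str τ V} {M : ℕ} {𝕐 : Str τ Q} (h : SOK 𝔹 M 𝕐 π 𝕏)
    {lb : Fin τ.m} {z : Fin (τ.ar lb) → P} (hz : 𝕏 lb z) : 𝕐 lb (fun i => π (z i)) := by
  classical
  set S : Finset P := Finset.univ.image z with hS
  let eq : Fin S.card ≃ S := (S.equivFin).symm
  have hz0 : ∀ i, ∃ k, ((eq k : S) : P) = z i := by
    intro i
    refine ⟨eq.symm ⟨z i, Finset.mem_image_of_mem _ (Finset.mem_univ i)⟩, ?_⟩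
    simp
  choose z0 hz0 using hz0
  have hinj : Function.Injective (fun k => ((eq k : S) : P)) := by
    intro k k' hk
    exact eq.injective (Subtype.ext hk)
  have hzz : (fun i => ((eq (z0 i) : S) : P)) = z := funext hz0
  have hrel : pull 𝕏 (fun k => ((eq k : S) : P)) lb z0 := by
    show 𝕏 lb (fun i => ((eq (z0 i) : S) : P))
    rw [hzz]
    exact hz
  have hsurj : ∀ k, ∃ i, z0 i = k := by
    intro k
    obtain ⟨i, -, hi⟩ := Finset.mem_image.1 (eq k).2
    exact ⟨i, hinj ((hz0 i).trans hi)⟩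
  have hirr : Irreducible (pull 𝕏 (fun k => ((eq k : S) : P))) := by
    intro x y _
    exact ⟨lb, z0, hrel, hsurj x, hsurj y⟩
  have h1 := h.hemb _ _ hinj hirr
  rw [h1] at hrel
  have h2 : 𝕐 lb (fun i => π ((eq (z0 i) : S) : P)) := hrel
  have h3 : (fun i => π ((eq (z0 i) : S) : P)) = fun i => π (z i) := by
    funext i
    rw [hz0 i]
  rwa [h3] at h2

/-- the new system -/
theorem sysOK (hα : Function.Injective α) {V : Type} {𝔹 : Str τ V} {M : ℕ}
    {𝕐 : Str τ Q} (h1 : 𝔸 = pull 𝕐 α) (h2 : OK 𝔹 M 𝔸) (h3 : SOK 𝔹 M 𝕐 π 𝕏) :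
    SOK 𝔹 M 𝕐 (p' : PP π 𝕏 α 𝔸 ι → Q) (X' π 𝕏 α 𝔸 ι) := by
  -- the second alternative does not occur
  have hA : ∀ (lb : Fin τ.m) (w : Fin (τ.ar lb) → DD π α ι), XA 𝕏 𝔸 lb w →
      𝔸 lb (fun i => (w i).1.1) ∧ ∀ n, 𝕏 lb (fun i => (w i).1.2 n) := by
    rintro lb w (h | ⟨h4, n, h5⟩)
    · exact h
    · exfalso
      apply h4
      have h6 := rel_hemb h3 h5
      have h7 : (fun i => π ((w i).1.2 n)) = fun i => α (w i).1.1 := funext fun i => (w i).2 n
      rw [h7] at h6
      rw [h1]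
      exact h6
  have htrans : ∀ (l : Fin τ.m) (z : Fin (τ.ar l) → PP π 𝕏 α 𝔸 ι), X' π 𝕏 α 𝔸 ι l z →
      ∀ i j, p' (z i) = p' (z j) → z i = z j := by
    rintro lb z (⟨w, hw, h4⟩ | ⟨-, L, y, hy, h4⟩) i j hij
    · have h5 := hA lb w h4
      rw [hw i, hw j] at hij ⊢
      have h6 : (w i).1.1 = (w j).1.1 := hα hij
      have h7 : (w i).1.2 = (w j).1.2 := by
        funext n
        refine h3.trans lb _ (h5.2 n) i j ?_
        rw [(w i).2 n, (w j).2 n, h6]
      congr 1
      exact Subtype.ext (Prod.ext h6 h7)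
    · rw [hy i, hy j, ph_part hα, ph_part hα] at hij
      rw [hy i, hy j, h3.trans lb y h4 i j hij]
  -- the two kinds of irreducible substructures
  have hcase : ∀ (m : ℕ) (s : Fin m → PP π 𝕏 α 𝔸 ι), Function.Injective s →
      Irreducible (pull (X' π 𝕏 α 𝔸 ι) s) →
      (∃ (L : Line (EE π 𝕏 α 𝔸) ι) (y : Fin m → P), (∀ i, s i = ph L (y i)) ∧
        Function.Injective y ∧ pull (X' π 𝕏 α 𝔸 ι) s = pull 𝕏 y) ∨
      ∃ w : Fin m → DD π α ι, (∀ i, s i = .inl (w i)) ∧
        Function.Injective (fun i => (w i).1.1) ∧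
        pull (X' π 𝕏 α 𝔸 ι) s = pull 𝔸 (fun i => (w i).1.1) := by
    intro m s hs hirr
    by_cases hB : ∃ k w, s k = .inr w
    · obtain ⟨k, w, hk⟩ := hB
      refine Or.inl ?_
      have hx : ∀ i, ∃ y, s i = ph w.1 y := by
        intro i
        by_cases hik : i = k
        · refine ⟨w.2.1, ?_⟩
          rw [hik, hk, ph_inr w.1 w.2.2]
        · obtain ⟨lb, z, hz, ⟨b, hb⟩, ⟨c, hc⟩⟩ := hirr i k hik
          rcases hz with ⟨w', hw', -⟩ | ⟨-, L, y, hy, -⟩
          · have h4 := hw' c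
            simp only [hc, hk] at h4
            cases h4
          · have h4 := hy c
            simp only [hc, hk] at h4
            have h5 : w.1 = L := ph_line L h4.symm
            refine ⟨y b, ?_⟩
            have h6 := hy b
            simp only [hb] at h6
            rw [h5]
            exact h6
      choose y hy using hx
      have hyinj : Function.Injective y := by
        intro i j hij
        apply hs
        rw [hy i, hy j, hij]
      refine ⟨w.1, y, hy, hyinj, ?_⟩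
      have h4 : s = fun i => ph w.1 (y i) := funext hy
      have h5 := pull_ph (𝔸 := 𝔸) hα w.1
      rw [h4]
      conv_rhs => rw [← h5]
      rfl
    · refine Or.inr ?_
      have hx : ∀ i, ∃ w, s i = .inl w := by
        intro i
        rcases hz : s i with w | w
        · exact ⟨w, rfl⟩
        · exact absurd ⟨i, w, hz⟩ hB
      choose w hw using hx
      have hidx : Function.Injective (fun i => (w i).1.1) := by
        intro i j hij
        by_contra hne
        obtain ⟨lb, z, hz, ⟨b, hb⟩, ⟨c, hc⟩⟩ := hirr i j hne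
        have h4 := htrans lb _ hz b c (by
          simp only [hb, hc, hw i, hw j]
          exact congrArg α hij)
        simp only [hb, hc] at h4
        exact hne (hs h4)
      refine ⟨w, hw, hidx, ?_⟩
      have hval : ∀ (lb : Fin τ.m) (z : Fin (τ.ar lb) → Fin m), pull (X' π 𝕏 α 𝔸 ι) s lb z ↔
          (𝔸 lb (fun i => (w (z i)).1.1) ∧ ∀ n, 𝕏 lb (fun i => (w (z i)).1.2 n)) := by
        intro lb z
        have h4 : pull (X' π 𝕏 α 𝔸 ι) s lb z ↔ XA 𝕏 𝔸 lb (fun i => w (z i)) :=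
          X'_inl (fun i => hw (z i))
        rw [h4]
        exact ⟨fun h => hA lb _ h, fun h => Or.inl h⟩
      have hn : ∀ n, pull 𝕏 (fun i => (w i).1.2 n) = pull 𝔸 (fun i => (w i).1.1) := by
        intro n
        have h4 : Function.Injective (fun i => (w i).1.2 n) := by
          intro i j hij
          apply hidx
          apply hα
          have h5 := congrArg π hij
          simp only at h5
          rw [(w i).2 n, (w j).2 n] at h5
          exact h5
        have h5 : Irreducible (pull 𝕏 (fun i => (w i).1.2 n)) := by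
          intro i j hij
          obtain ⟨lb, z, hz, hb, hc⟩ := hirr i j hij
          exact ⟨lb, z, ((hval lb z).1 hz).2 n, hb, hc⟩
        have h6 := h3.hemb m _ h4 h5
        rw [h6]
        funext lb z
        show 𝕐 lb (fun i => π ((w (z i)).1.2 n)) = 𝔸 lb (fun i => (w (z i)).1.1)
        have h7 : (fun i => π ((w (z i)).1.2 n)) = fun i => α (w (z i)).1.1 :=
          funext fun i => (w (z i)).2 n
        rw [h7, h1]
        rfl
      funext lb z
      apply propext
      rw [hval lb z]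
      constructor
      · exact fun h => h.1
      · intro h
        refine ⟨h, fun n => ?_⟩
        have h4 := congrFun (congrFun (hn n) lb) z
        exact h4.mpr h
  refine ⟨htrans, ?_, ?_⟩
  · intro m s hs hirr
    rcases hcase m s hs hirr with ⟨L, y, hy, hyi, h4⟩ | ⟨w, hw, hwi, h4⟩
    · rw [h4] at hirr ⊢
      rw [h3.hemb m y hyi hirr]
      have h5 : (fun i => p' (s i)) = fun i => π (y i) := by
        funext i
        rw [hy i, ph_part hα]
      rw [h5]
    · rw [h4]
      have h5 : (fun i => p' (s i)) = fun i => α (w i).1.1 := by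
        funext i
        rw [hw i]
        rfl
      rw [h5, h1]
      rfl
  · intro m s hm hs hirr
    rcases hcase m s hs hirr with ⟨L, y, hy, hyi, h4⟩ | ⟨w, hw, hwi, h4⟩
    · rw [h4] at hirr ⊢
      exact h3.real m y hm hyi hirr
    · rw [h4] at hirr ⊢
      exact h2 m _ hm hwi hirr

end

/-- One step of the partite construction. -/
theorem pf_STP : Pool.Agent.H53.GR.T_STP := by
  classical
  intro τ V Q P κ _ _ _ 𝔹 M π 𝕏 a α 𝔸 _ hα
  obtain ⟨ι, hι, hHJ⟩ := Line.exists_mono_in_high_dimension (EE π 𝕏 α 𝔸) κ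
  have hfin : Finite (Line (EE π 𝕏 α 𝔸) ι) := by
    refine Finite.of_injective (fun l : Line (EE π 𝕏 α 𝔸) ι => l.idxFun) ?_
    rintro ⟨f, hf⟩ ⟨g, hg⟩ h
    simp only at h
    subst h
    rfl
  refine ⟨PP π 𝕏 α 𝔸 ι, inferInstance, p', X' π 𝕏 α 𝔸 ι, ?_, ?_⟩
  · intro χ
    obtain ⟨l, cc, hl⟩ := hHJ (fun u => χ (fun i => .inl ⟨(i, fun n => (u n).1 i),
      fun n => (u n).2.part i⟩))
    refine ⟨ph l, ⟨fun x y hxy => ph_inj hα.injective l hxy, fun x => ph_part hα.injective l x,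
      pull_ph hα.injective l⟩, ?_⟩
    have key : ∀ e : Fin a → P, SCopy π 𝕏 α 𝔸 e → χ (fun i => ph l (e i)) = cc := by
      intro e he
      rw [← hl ⟨e, he⟩]
      congr 1
      funext i
      rw [ph_inl hα.injective l (he.part i)]
      congr 1
      apply Subtype.ext
      refine Prod.ext rfl ?_
      funext n
      have h9 : ((l : EE π 𝕏 α 𝔸 → ι → EE π 𝕏 α 𝔸) ⟨e, he⟩) n = (l.idxFun n).getD ⟨e, he⟩ := rfl
      simp only [h9]
      unfold ln
      cases l.idxFun n <;> rfl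
    intro e e' he he'
    rw [key e he, key e' he']
  · intro 𝕐 h1 h2 h3
    exact sysOK hα.injective h1 h2 h3

end Pool.Agent.H90.GR
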